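import Pool.Statements.S01246
import Pool.Agent.T2H50.HC.Graph
import Pool.Agent.T2H50.HC.Res
import Pool.Agent.T2H50.HC.G1

set_option autoImplicit false
open CategoryTheory
open Pool Pool.MP_3ca9d5_al

namespace Pool.Agent.S01246

/-- The negation of the preceding statement: For surjections G₁→Q, G₂→Q with finitely generated kernel in G₁, G₁ and G₂ of type FP₂ and Q of type FP₃, the fibre product {(a,b) : π₁a = π₂b} is of type FP₂. -/
theorem result :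
    ¬ (∀ (G₁ G₂ Q : Type) [Group G₁] [Group G₂] [Group Q] (π₁ : G₁ →* Q) (π₂ : G₂ →* Q),
      Function.Surjective π₁ → Function.Surjective π₂ → Group.FG π₁.ker →
      (∃ R : ProjectiveResolution (Rep.trivial ℤ G₁ ℤ), ∀ k ≤ 2,
        ∃ s : Finset (R.complex.X k).V, ∀ x : (R.complex.X k).V,
          x ∈ Submodule.span ℤ
            (Set.range (fun p : G₁ × s => (R.complex.X k).ρ p.1 (p.2 : (R.complex.X k).V)))) →
      (∃ R : ProjectiveResolution (Rep.trivial ℤ G₂ ℤ), ∀ k ≤ 2,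
        ∃ s : Finset (R.complex.X k).V, ∀ x : (R.complex.X k).V,
          x ∈ Submodule.span ℤ
            (Set.range (fun p : G₂ × s => (R.complex.X k).ρ p.1 (p.2 : (R.complex.X k).V)))) →
      (∃ R : ProjectiveResolution (Rep.trivial ℤ Q ℤ), ∀ k ≤ 3,
        ∃ s : Finset (R.complex.X k).V, ∀ x : (R.complex.X k).V,
          x ∈ Submodule.span ℤ
            (Set.range (fun p : Q × s => (R.complex.X k).ρ p.1 (p.2 : (R.complex.X k).V)))) →
      (∃ R : ProjectiveResolution (Rep.trivial ℤ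
          ↥((π₁.comp (MonoidHom.fst G₁ G₂)).eqLocus (π₂.comp (MonoidHom.snd G₁ G₂))) ℤ),
        ∀ k ≤ 2,
        ∃ s : Finset (R.complex.X k).V, ∀ x : (R.complex.X k).V,
          x ∈ Submodule.span ℤ
            (Set.range (fun p : ↥((π₁.comp (MonoidHom.fst G₁ G₂)).eqLocus
                (π₂.comp (MonoidHom.snd G₁ G₂))) × s =>
              (R.complex.X k).ρ p.1 (p.2 : (R.complex.X k).V))))) := by
  intro h
  classical
  let ad := Pool.Agent.T2H50.HC.Gr.ad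
  let Q : Type := Pool.Agent.T2H50.HC.BB ad
  let κ : Type := Pool.Agent.T2H50.HC.Ed ad
  let _ : Fintype κ := Fintype.ofFinite _
  let π : FreeGroup κ →* Q := Pool.Agent.T2H50.HC.pw ad
  have hπ : Function.Surjective π :=
    Pool.Agent.T2H50.HC.pw_surj (0 : Fin 21) Pool.Agent.T2H50.HC.Gr.conn
  have h3 : Pool.Agent.Y66.HC.FPc 3 Q := Pool.Agent.T2H50.HC.fp3
    Pool.Agent.T2H50.HC.Gr.lt2 Pool.Agent.T2H50.HC.Gr.inj2 Pool.Agent.T2H50.HC.Gr.acyc
    Pool.Agent.T2H50.HC.Gr.k4 0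
  have h2 : Pool.Agent.Y66.HC.FPc 2 Q := by
    obtain ⟨R, hR⟩ := h3
    exact ⟨R, fun k hk => hR k (by omega)⟩
  have hRM : (Pool.Agent.Y66.HC.RM fun a => π (FreeGroup.of a)).FG :=
    Pool.Agent.T2H50.HC.m1 _ (Pool.Agent.T2H50.HC.range_closure π hπ) h2
  have hP : Pool.Agent.Y66.HC.FPc 2 (Pool.Agent.T2H50.HC.PPf π) :=
    h (Pool.Agent.T2H50.HC.GG π) (FreeGroup κ) Q (Pool.Agent.T2H50.HC.p1 π) π
      (Pool.Agent.T2H50.HC.p1_surj π) hπ (Pool.Agent.T2H50.HC.ker_fg π hπ)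
      (Pool.Agent.T2H50.HC.gg_fp2 π hπ hRM) Pool.Agent.T2H50.HC.fpc_free h3
  obtain ⟨S, hS, hS'⟩ := Pool.Agent.T2H50.HC.fib π hπ hP
  exact Pool.Agent.T2H50.HC.not_fp Pool.Agent.T2H50.HC.Gr.flat Pool.Agent.T2H50.HC.Gr.irr
    Pool.Agent.T2H50.HC.Gr.symm Pool.Agent.T2H50.HC.Gr.cp 6 Pool.Agent.T2H50.HC.Gr.cp_closed
    Pool.Agent.T2H50.HC.Gr.cp_path Pool.Agent.T2H50.HC.Gr.cp_hol S hS hS'

end Pool.Agent.S01246
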