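import Pool.Statements.S04349
import Pool.Agent.T2H76.HR.H

set_option autoImplicit false
open Pool Pool.MP_37b94e_an

namespace Pool.Agent.S04349

/-- For n ≥ 2 and each k there is c such that any real-analytic p on ℂⁿ whose restriction to every affine complex hyperplane is a sum of k terms ±∣holomorphic∣² is itself a sum of c terms ±∣entire holomorphic∣². -/
theorem result :
    ∀ n : ℕ, 2 ≤ n → ∀ k : ℕ, ∃ c : ℕ, ∀ p : (Fin n → ℂ) → ℝ,
      AnalyticOnNhd ℝ p Set.univ →
      (∀ (a : Fin n → ℂ) (L : (Fin (n - 1) → ℂ) →ₗ[ℂ] (Fin n → ℂ)),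
        Function.Injective L →
        ∃ (ε : Fin k → ℝ) (g : Fin k → (Fin (n - 1) → ℂ) → ℂ),
          (∀ j, ε j = 1 ∨ ε j = -1) ∧ (∀ j, Differentiable ℂ (g j)) ∧
          ∀ x, p (a + L x) = ∑ j, ε j * Complex.normSq (g j x)) →
      ∃ (ε : Fin c → ℝ) (f : Fin c → (Fin n → ℂ) → ℂ),
        (∀ j, ε j = 1 ∨ ε j = -1) ∧ (∀ j, Differentiable ℂ (f j)) ∧
        ∀ z, p z = ∑ j, ε j * Complex.normSq (f j z) := by
  intro n hn k
  refine ⟨(k ^ Fintype.card (Fin n)) ^ Fintype.card (Fin n), fun p hp hL => ?_⟩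
  refine Pool.Agent.T2H76.HR.main_lines hp fun a b => ?_
  let s : Fin (n - 1) → Fin n := Fin.castLE (Nat.sub_le n 1)
  have hs : Function.Injective s := Fin.castLE_injective _
  let ι : (Fin (n - 1) → ℂ) →ₗ[ℂ] (Fin n → ℂ) := Function.ExtendByZero.linearMap ℂ s
  have hι : ∀ x j, ι x (s j) = x j := by
    intro x j
    exact hs.extend_apply x 0 j
  have hιinj : Function.Injective ι := by
    intro x y hxy
    funext j
    rw [← hι x j, ← hι y j, hxy]
  by_cases hb : b = 0
  · obtain ⟨ε, g, h1, h2, h3⟩ := hL a ι hιinj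
    refine ⟨ε, fun j _ => g j 0, fun j => differentiable_const _, fun t => ?_⟩
    have h4 := h3 0
    rw [map_zero, add_zero] at h4
    rw [hb, smul_zero, add_zero, h4]
  · let e : Fin (n - 1) → ℂ := fun _ => 1
    have he : ι e ≠ 0 := by
      intro h
      have h1 := hι e ⟨0, by omega⟩
      rw [h] at h1
      simp [e] at h1
    obtain ⟨A, hA⟩ := SeparatingDual.exists_continuousLinearEquiv_apply_eq (R := ℂ) he hb
    obtain ⟨ε, g, h1, h2, h3⟩ := hL a ((A : (Fin n → ℂ) →L[ℂ] (Fin n → ℂ)).toLinearMap.comp ι)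
      (A.injective.comp hιinj)
    refine ⟨ε, fun j t => g j (t • e), fun j => ?_, fun t => ?_⟩
    · exact (h2 j).comp (differentiable_id.smul_const e)
    · have h4 := h3 (t • e)
      rw [← h4]
      congr 2
      simp only [LinearMap.comp_apply, map_smul]
      congr 1
      exact hA.symm

end Pool.Agent.S04349
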