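import Pool.Statements.S04693
import Pool.Agent.T2H09.PiBase

set_option autoImplicit false
open Pool Pool.MP_53fbd4_an

namespace Pool.Agent.S04693

/-- For every real Banach space with a 1-unconditional basis, the closed unit ball in the relative weak topology has a countable family of nonempty relatively open sets such that every nonempty relatively open subset of the ball contains one of them. -/
theorem result :
    ∀ (X : Type) [NormedAddCommGroup X] [NormedSpace ℝ X] [CompleteSpace X] (e : ℕ → X),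
      (∀ x : X, ∃! a : ℕ → ℝ, HasSum (fun n => a n • e n) x) →
      (∀ (s : Finset ℕ) (a ε : ℕ → ℝ), (∀ n, ε n = 1 ∨ ε n = -1) →
          ‖∑ n ∈ s, (ε n * a n) • e n‖ ≤ ‖∑ n ∈ s, a n • e n‖) →
      ∃ U : ℕ → Set (WeakSpace ℝ X),
        (∀ n, IsOpen (U n) ∧
            (U n ∩ (toWeakSpace ℝ X) '' Metric.closedBall (0 : X) 1).Nonempty) ∧
        ∀ V : Set (WeakSpace ℝ X), IsOpen V →
          (V ∩ (toWeakSpace ℝ X) '' Metric.closedBall (0 : X) 1).Nonempty →
            ∃ n, U n ∩ (toWeakSpace ℝ X) '' Metric.closedBall (0 : X) 1 ⊆ V := by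
  classical
  intro X _ _ _ e hbas hunc
  obtain ⟨c, hc, hcT⟩ := Pool.Agent.T2H09.PiBase.exists_coord (e := e) hunc hbas
  -- the index set: rational vectors, number of coordinates, inverse of the radius
  let ι := (ℕ →₀ ℚ) × ℕ × ℕ
  let B : ι → Set (WeakSpace ℝ X) := fun i =>
    {u | ∀ n < i.2.1, |c n ((toWeakSpace ℝ X).symm u) - (i.1 n : ℝ)| < 1 / ((i.2.2 : ℝ) + 1)}
  have hB : ∀ i, IsOpen (B i) := by
    intro i
    have h1 : B i = ⋂ n ∈ Finset.range i.2.1,
        {u | |c n ((toWeakSpace ℝ X).symm u) - (i.1 n : ℝ)| < 1 / ((i.2.2 : ℝ) + 1)} := by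
      ext u
      simp only [B, Set.mem_ofPred_eq, Set.mem_iInter, Finset.mem_range]
    rw [h1]
    refine isOpen_biInter_finset fun n _ => ?_
    have h2 : Continuous fun u : WeakSpace ℝ X => c n ((toWeakSpace ℝ X).symm u) :=
      WeakBilin.eval_continuous (topDualPairing ℝ X).flip (c n)
    exact isOpen_lt (h2.sub continuous_const).abs continuous_const
  obtain ⟨g, hg⟩ := exists_surjective_nat ι
  let K : Set (WeakSpace ℝ X) := (toWeakSpace ℝ X) '' Metric.closedBall (0 : X) 1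
  refine ⟨fun k => if (B (g k) ∩ K).Nonempty then B (g k) else Set.univ, fun k => ?_, ?_⟩
  · by_cases h : (B (g k) ∩ K).Nonempty
    · simp only [if_pos h]
      exact ⟨hB _, h⟩
    · simp only [if_neg h]
      refine ⟨isOpen_univ, toWeakSpace ℝ X 0, trivial, 0, by simp, rfl⟩
  · rintro V hV ⟨_, hxV, x, hx, rfl⟩
    rw [mem_closedBall_zero_iff] at hx
    -- a basic neighbourhood
    obtain ⟨O, hO, rfl⟩ := hV
    rw [isOpen_pi_iff] at hO
    obtain ⟨I, w, hw, hIw⟩ := hO _ hxV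
    have hε : ∀ f ∈ I, ∃ ε : ℝ, 0 < ε ∧ ∀ t : ℝ, |t - f x| < ε → t ∈ w f := by
      intro f hf
      obtain ⟨h1, h2⟩ := hw f hf
      obtain ⟨ε, h3, h4⟩ := Metric.isOpen_iff.1 h1 _ h2
      exact ⟨ε, h3, fun t ht => h4 ht⟩
    choose! ε hε0 hε1 using hε
    obtain ⟨ε', hε'0, hε'⟩ : ∃ ε' : ℝ, 0 < ε' ∧ ∀ f ∈ I, ε' ≤ ε f := by
      rcases I.eq_empty_or_nonempty with h | h
      · exact ⟨1, one_pos, by simp [h]⟩
      · exact ⟨I.inf' h ε, (Finset.lt_inf'_iff h).2 hε0, fun f hf => Finset.inf'_le ε hf⟩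
    obtain ⟨a, N, r, hr, ha, hu⟩ :=
      Pool.Agent.T2H09.PiBase.nbhd (e := e) hunc hc I hx hε'0
    obtain ⟨m, hm⟩ := exists_nat_one_div_lt (half_pos hr)
    have hq : ∀ n, ∃ q : ℚ, |a n - q| < 1 / ((m : ℝ) + 1) := by
      intro n
      obtain ⟨q, h1⟩ := exists_rat_near (a n) (ε := 1 / ((m : ℝ) + 1)) (by positivity)
      exact ⟨q, h1⟩
    choose q hq using hq
    let q' : ℕ →₀ ℚ := Finsupp.indicator (Finset.range N) fun n _ => q n
    obtain ⟨k, hk⟩ := hg (q', N, m)
    have hq' : ∀ n < N, q' n = q n := fun n hn =>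
      Finsupp.indicator_of_mem (Finset.mem_range.2 hn) _
    have hmem : (B (g k) ∩ K).Nonempty := by
      refine ⟨toWeakSpace ℝ X (Pool.Agent.T2H09.PiBase.T e a), ?_, _,
        mem_closedBall_zero_iff.2 ha, rfl⟩
      rw [hk]
      intro n hn
      change |c n (Pool.Agent.T2H09.PiBase.T e a) - (q' n : ℝ)| < _
      rw [hcT, hq' n hn]
      exact hq n
    refine ⟨k, ?_⟩
    simp only [if_pos hmem]
    rintro _ ⟨hu1, u, hu2, rfl⟩
    rw [mem_closedBall_zero_iff] at hu2
    rw [hk] at hu1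
    have h5 := hu u hu2 (fun n hn => by
      have h6 : |c n u - (q' n : ℝ)| < 1 / ((m : ℝ) + 1) := hu1 n hn
      rw [hq' n hn] at h6
      have h7 := hq n
      have h8 : c n u - a n = (c n u - q n) - (a n - q n) := by ring
      rw [h8]
      refine (abs_sub _ _).trans_lt ?_
      linarith)
    refine hIw ?_
    intro f hf
    exact hε1 f hf _ ((h5 f hf).trans_le (hε' f hf))

end Pool.Agent.S04693
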