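import Pool.Statements.S05456
import Pool.Agent.T2H78.SEN.Fin

set_option autoImplicit false
open Pool Pool.MP_951270_an

namespace Pool.Agent.S05456

/-- The negation of the preceding statement: Fix n≥2 and a. Among degree-n polynomials with all zeros in the closed unit disc vanishing at a, if P maximizes the distance d from a to its nearest critical point, then every critical point of P lies at distance exactly d from a. -/
theorem result :
    ¬ (∀ n : ℕ, 2 ≤ n → ∀ a : ℂ, ∀ P : Polynomial ℂ, ∀ d : ℝ,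
      P.natDegree = n → P.eval a = 0 → (∀ z : ℂ, P.eval z = 0 → ‖z‖ ≤ 1) →
      (∃ ζ : ℂ, P.derivative.eval ζ = 0 ∧ ‖ζ - a‖ = d) →
      (∀ ζ : ℂ, P.derivative.eval ζ = 0 → d ≤ ‖ζ - a‖) →
      (∀ Q : Polynomial ℂ, Q.natDegree = n → Q.eval a = 0 →
        (∀ z : ℂ, Q.eval z = 0 → ‖z‖ ≤ 1) →
        ∃ ξ : ℂ, Q.derivative.eval ξ = 0 ∧ ‖ξ - a‖ ≤ d) →
      ∀ ζ : ℂ, P.derivative.eval ζ = 0 → ‖ζ - a‖ = d) :=
  Pool.Agent.T2H78.SEN.not_Main

end Pool.Agent.S05456
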