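import Pool.Statements.S06952
import Pool.Agent.T2H60.SX.Fin
import Pool.Agent.T2H60.SX.PHA
import Pool.Agent.T2H60.SX.PHG
import Pool.Agent.T2H60.SX.PGCh
import Pool.Agent.T2H60.SX.PG01
import Pool.Agent.T2H60.SX.PG02
import Pool.Agent.T2H60.SX.PGD
import Pool.Agent.T2H60.SX.PGDT
import Pool.Agent.T2H60.SX.PGN
import Pool.Agent.T2H60.SX.PGNT
import Pool.Agent.T2H60.SX.PGC
import Pool.Agent.T2H60.SX.PGP0
import Pool.Agent.T2H60.SX.PGK
import Pool.Agent.T2H60.SX.PGE2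
import Pool.Agent.T2H60.SX.PTS
import Pool.Agent.T2H60.SX.PTI
import Pool.Agent.T2H60.SX.PNT
import Pool.Agent.T2H60.SX.PNE
import Pool.Agent.T2H60.SX.PTL
import Pool.Agent.T2H60.SX.PFX
import Pool.Agent.T2H60.SX.PFR
import Pool.Agent.T2H60.SX.PFS
import Pool.Agent.T2H60.SX.PFA
import Pool.Agent.T2H60.SX.PFB
import Pool.Agent.T2H60.SX.PBL
import Pool.Agent.T2H60.SX.PVV
import Pool.Agent.T2H60.SX.PVA
import Pool.Agent.T2H60.SX.PAH
import Pool.Agent.T2H60.SX.PAM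

set_option autoImplicit false
open Matrix Classical
open Pool Pool.MP_048773_co

namespace Pool.Agent.S06952

open Pool.Agent.T2H60.SX in
theorem gch : GCh :=
  pGCh pG01 pG03 pG05 pG06 (pGS pG01 pG03 pG04 pG06) (pGDT pG01 pG03 pG04 pG06 (pGD pG05))
    (pGNT (pGN pG02 pG03) pG01 pG02 pG03 pG06) (pGNE (pGN pG02 pG03) pG01 pG02 pG03 pG06)
    (pGP0 pGC pG02 pG03) (pGK pG02 pG03) (pGE2 pG03 pG06)

open Pool.Agent.T2H60.SX in
theorem hVA : VA := pVA pFX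
open Pool.Agent.T2H60.SX in
theorem hTL : TL := pTL pTS pTE pTI pNT pNE
open Pool.Agent.T2H60.SX in
theorem hTLF : TLF := pTLF hTL pTS pTE pTI pNT pNE
open Pool.Agent.T2H60.SX in
theorem hFS : FS := pFS
open Pool.Agent.T2H60.SX in
theorem hBL : BL := pBL hTL (pFB pFX) hFS pFA pFR pFX pNT pNE
open Pool.Agent.T2H60.SX in
theorem hBLF : BLF := pBLF hBL hFS pFA pFR pFX pNT pNE

open Pool.Agent.T2H60.SX in
/-- The negation of the preceding statement: For each Δ ≥ 3 and all large n, any connected nonregular n-vertex graph with max degree Δ of largest spectral radius has all degrees Δ except one vertex of degree δ: Δ−1 (Δ, n odd), 1 (Δ odd, n even), Δ−2 (Δ even). -/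
theorem result :
    ¬ (∀ Δ : ℕ, 3 ≤ Δ → ∃ N : ℕ, ∀ n : ℕ, N ≤ n →
      ∀ G : SimpleGraph (Fin n),
        G.Connected → G.maxDegree = Δ → (∃ u v : Fin n, G.degree u ≠ G.degree v) →
        (∀ H : SimpleGraph (Fin n),
          H.Connected → H.maxDegree = Δ → (∃ u v : Fin n, H.degree u ≠ H.degree v) →
          sSup {r : ℝ | ∃ x : Fin n → ℝ, x ⬝ᵥ x = 1 ∧ r = x ⬝ᵥ (H.adjMatrix ℝ *ᵥ x)} ≤
          sSup {r : ℝ | ∃ x : Fin n → ℝ, x ⬝ᵥ x = 1 ∧ r = x ⬝ᵥ (G.adjMatrix ℝ *ᵥ x)}) →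
        ∃ v : Fin n,
          G.degree v = (if Odd Δ then (if Odd n then Δ - 1 else 1) else Δ - 2) ∧
          ∀ u : Fin n, u ≠ v → G.degree u = Δ) := by
  exact final pHA pHG gch (pAH pVV hVA pFX pFR) (pAM hTLF hBLF pVV hVA pFX pFR pNE)

end Pool.Agent.S06952
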