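import Pool.Statements.S07574

set_option autoImplicit false
open Pool Pool.MP_1f8616_co

namespace Pool.Agent.S07574

/-- The disjoint union of the finite chains with `1, 2, 3, ...` elements. -/
abbrev P : Type := Σ n : ℕ, Fin (n + 1)

theorem chain_fst {C : Set P} (hC : IsChain (· ≤ ·) C) {x y : P} (hx : x ∈ C) (hy : y ∈ C) :
    x.1 = y.1 := by
  by_cases h : x = y
  · rw [h]
  · rcases hC hx hy h with h | h
    · exact (Sigma.le_def.1 h).1
    · exact (Sigma.le_def.1 h).1.symm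

theorem chain_finite {C : Set P} (hC : IsChain (· ≤ ·) C) : C.Finite := by
  rcases C.eq_empty_or_nonempty with rfl | ⟨x, hx⟩
  · exact Set.finite_empty
  · refine (Set.finite_range (fun i : Fin (x.1 + 1) => (⟨x.1, i⟩ : P))).subset ?_
    intro y hy
    have h := chain_fst hC hx hy
    obtain ⟨n, i⟩ := x
    obtain ⟨m, j⟩ := y
    simp only at h
    subst h
    exact ⟨j, rfl⟩

/-- The negation of the preceding statement: Every countable poset with no saturated chain (or its reverse) that is an ω-indexed linear sum of infinite co-wellfounded chains has, for each k≥2, k disjoint chains and a partition into antichains where each antichain A meets at least min(∣A∣,k) chains. -/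
theorem result :
  ¬ (∀ (α : Type) [PartialOrder α] [Countable α],
    (¬ ∃ C : Set α, IsChain (· ≤ ·) C ∧
        (∀ x, x ∉ C → ∀ y ∈ C, ∀ z ∈ C, y < x → x < z → ¬ IsChain (· ≤ ·) (insert x C)) ∧
        ∃ f : α → ℕ,
          ((∀ x ∈ C, ∀ y ∈ C, x ≤ y → f x ≤ f y) ∧
            ∀ i : ℕ, Set.Infinite {x | x ∈ C ∧ f x = i} ∧
              ¬ ∃ s : ℕ → α, StrictMono s ∧ ∀ n, s n ∈ C ∧ f (s n) = i) ∨
          ((∀ x ∈ C, ∀ y ∈ C, x ≤ y → f y ≤ f x) ∧
            ∀ i : ℕ, Set.Infinite {x | x ∈ C ∧ f x = i} ∧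
              ¬ ∃ s : ℕ → α, StrictAnti s ∧ ∀ n, s n ∈ C ∧ f (s n) = i)) →
    ∀ k : ℕ, 2 ≤ k →
      ∃ C : Fin k → Set α, (∀ j, IsChain (· ≤ ·) (C j)) ∧
        Pairwise (fun i j => Disjoint (C i) (C j)) ∧
        ∃ g : α → ℕ, ∀ i : ℕ, IsAntichain (· ≤ ·) {x | g x = i} ∧
          min (Set.encard {x | g x = i}) (k : ℕ∞) ≤
            Set.encard {j : Fin k | (C j ∩ {x | g x = i}).Nonempty}) := by
  intro H
  obtain ⟨C, hC, -, g, hg⟩ := H P (by
    rintro ⟨C, hC, -, f, h | h⟩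
    · exact (h.2 0).1 ((chain_finite hC).subset (fun x hx => hx.1))
    · exact (h.2 0).1 ((chain_finite hC).subset (fun x hx => hx.1))) 2 le_rfl
  have hfin : (⋃ j, C j).Finite := Set.finite_iUnion (fun j => chain_finite (hC j))
  obtain ⟨N, hN⟩ : ∃ N, N = (⋃ j, C j).ncard := ⟨_, rfl⟩
  have key : ∀ x : P, ∃ y ∈ ⋃ j, C j, g y = g x := by
    intro x
    have h1 := (hg (g x)).2
    have h2 : (1 : ℕ∞) ≤ min (Set.encard {y | g y = g x}) ((2 : ℕ) : ℕ∞) := by
      refine le_min ?_ (by norm_num)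
      rw [Set.one_le_encard_iff_nonempty]
      exact ⟨x, rfl⟩
    have h3 := h2.trans h1
    rw [Set.one_le_encard_iff_nonempty] at h3
    obtain ⟨j, y, hy1, hy2⟩ := h3
    exact ⟨y, Set.mem_iUnion.2 ⟨j, hy1⟩, hy2⟩
  choose φ hφ1 hφ2 using key
  have hinj : Function.Injective (fun i : Fin (N + 1) => φ ⟨N, i⟩) := by
    intro i i' h
    have h1 : g ⟨N, i⟩ = g ⟨N, i'⟩ := by
      have h2 : g (φ ⟨N, i⟩) = g (φ ⟨N, i'⟩) := congrArg g h
      rw [hφ2, hφ2] at h2
      exact h2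
    by_contra hne
    have hanti := (hg (g ⟨N, i⟩)).1
    have hne' : (⟨N, i⟩ : P) ≠ ⟨N, i'⟩ := by
      intro h2
      apply hne
      simpa using h2
    rcases le_total i i' with h3 | h3
    · exact hanti (show (⟨N, i⟩ : P) ∈ {x | g x = g ⟨N, i⟩} from rfl)
        (show (⟨N, i'⟩ : P) ∈ {x | g x = g ⟨N, i⟩} from h1.symm) hne' (Sigma.mk_le_mk_iff.2 h3)
    · exact hanti (show (⟨N, i'⟩ : P) ∈ {x | g x = g ⟨N, i⟩} from h1.symm)
        (show (⟨N, i⟩ : P) ∈ {x | g x = g ⟨N, i⟩} from rfl) hne'.symm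
        (Sigma.mk_le_mk_iff.2 h3)
  have hcard : N + 1 ≤ N := by
    have h1 : (Set.range (fun i : Fin (N + 1) => φ ⟨N, i⟩)).ncard ≤ (⋃ j, C j).ncard := by
      refine Set.ncard_le_ncard ?_ hfin
      rintro _ ⟨i, rfl⟩
      exact hφ1 _
    rw [← Set.image_univ, Set.ncard_image_of_injective _ hinj, Set.ncard_univ, Nat.card_fin,
      ← hN] at h1
    exact h1
  omega

end Pool.Agent.S07574
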