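import Pool.Statements.S07874
import Pool.Agent.Results.MP_2d87f2_co.Blowup

set_option autoImplicit false
open Pool Pool.MP_2d87f2_co

namespace Pool.Agent.S07874

open Pool.Agent.Results.MP_2d87f2_co.Blowup in
theorem pairs_lower (m : ℕ) (A : Finset (W m)) :
    m * A.card ≤ Set.ncard {p : W m × W m | p.1 ∈ A ∧ p.2 ∉ A ∧ (gr m).Adj p.1 p.2} := by
  refine (boundary_lower m A).trans ?_
  have hfin : {p : W m × W m | p.1 ∈ A ∧ p.2 ∉ A ∧ (gr m).Adj p.1 p.2}.Finite := by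
    have h1 : (⋃ x ∈ A, (fun y => (x, y)) '' (gr m).neighborSet x).Finite :=
      Set.Finite.biUnion A.finite_toSet (fun x _ => (locFinite m x).image _)
    refine h1.subset ?_
    rintro ⟨x, y⟩ ⟨hx, hy, h⟩
    rw [Set.mem_iUnion₂]
    exact ⟨x, hx, y, h, rfl⟩
  refine le_trans (Set.ncard_le_ncard ?_ (hfin.image (fun p => s(p.1, p.2))))
    (Set.ncard_image_le hfin)
  rintro e ⟨he, u, hu, v, hv, rfl⟩
  exact ⟨(u, v), ⟨hu, hv, he⟩, rfl⟩

open Pool.Agent.Results.MP_2d87f2_co.Blowup in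
theorem pairs_upper (m k : ℕ) [NeZero m] (hk : 2 ≤ k) (S : Set (W m))
    (hsep : ∀ u ∈ S, ∀ v ∈ S, u ≠ v → k ≤ (gr m).dist u v) (s : W m) (hs : s ∈ S) :
    Set.ncard {p : W m × W m | p.1 ∈ ({s} : Finset (W m)) ∧ p.2 ∈ S ∧
      p.2 ∉ ({s} : Finset (W m)) ∧ (gr m).dist p.1 p.2 ≤ 2 * k} ≤ ballCard (2 * k) := by
  have hone : ∀ y ∈ S, ∀ y' ∈ S, y.1 = y'.1 → y = y' := by
    intro y hy y' hy' h
    by_contra hne
    have h1 := hsep _ hy _ hy' hne
    have h2 : (gr m).Adj y y' := by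
      rw [gr_adj]
      refine ⟨hne, ?_⟩
      rw [h]
      simp
    rw [SimpleGraph.dist_eq_one_iff_adj.2 h2] at h1
    omega
  refine Set.ncard_le_ncard_of_injOn (fun p => p.2.1 * s.1⁻¹) ?_ ?_ (ball_finite _)
  · rintro ⟨x, y⟩ ⟨hx, hy, hn, hd⟩
    have hx' : x = s := Finset.mem_singleton.1 hx
    subst hx'
    exact (norm_le_dist m _ _).trans hd
  · rintro ⟨x, y⟩ ⟨hx, hy, hn, hd⟩ ⟨x', y'⟩ ⟨hx', hy', hn', hd'⟩ h
    have e1 : x = s := Finset.mem_singleton.1 hx
    have e2 : x' = s := Finset.mem_singleton.1 hx'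
    have h3 : y.1 = y'.1 := mul_right_cancel h
    have h4 : y = y' := hone y hy y' hy' h3
    rw [e1, e2, h4]

open Pool.Agent.Results.MP_2d87f2_co.Blowup in
theorem main : ∃ (V : Type) (G : SimpleGraph V), Infinite V ∧ G.Connected ∧
      (∀ v : V, (G.neighborSet v).Finite) ∧
      (∀ u v : V, ∃ φ : G ≃g G, φ u = v) ∧
      ∃ k : ℕ, 1 ≤ k ∧
      ∃ S : Set V,
        (∀ u ∈ S, ∀ v ∈ S, u ≠ v → k ≤ G.dist u v) ∧
        (∀ w : V, w ∉ S → ∃ u ∈ S, G.dist w u < k) ∧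
        sInf {r : ℝ | ∃ A : Finset V, A.Nonempty ∧ (↑A : Set V) ⊆ S ∧
            r = (Set.ncard {p : V × V | p.1 ∈ A ∧ p.2 ∈ S ∧ p.2 ∉ A ∧
                  G.dist p.1 p.2 ≤ 2 * k} : ℝ)
              / (A.card : ℝ)} <
        sInf {r : ℝ | ∃ A : Finset V, A.Nonempty ∧
            r = (Set.ncard {p : V × V | p.1 ∈ A ∧ p.2 ∉ A ∧ G.Adj p.1 p.2} : ℝ)
              / (A.card : ℝ)} := by
  obtain ⟨m, hm⟩ : ∃ m : ℕ, m = ballCard 4 + 1 := ⟨_, rfl⟩
  have : NeZero m := ⟨by omega⟩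
  obtain ⟨S, hS⟩ := exists_net (gr m) 2
  have hinf : Infinite (W m) := by
    have h1 : Infinite F := by
      rw [← not_finite_iff_infinite]
      intro hf
      have h2 : Function.Injective (fun q : F × Bool => child q.1 q.2) := by
        rintro ⟨v, b⟩ ⟨w, c⟩ h
        obtain ⟨rfl, rfl⟩ := child_injective _ _ _ _ h
        rfl
      have h3 := Nat.card_le_card_of_injective _ h2
      rw [Nat.card_prod] at h3
      have h4 : 0 < Nat.card F := Nat.card_pos
      have h5 : Nat.card Bool = 2 := by simp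
      rw [h5] at h3
      omega
    infer_instance
  have hmax : ∀ w : W m, w ∉ S → ∃ u ∈ S, (gr m).dist w u < 2 := by
    intro w hw
    by_contra hcon
    push Not at hcon
    have h1 : Separated (gr m) 2 (insert w S) := by
      rintro u hu v hv huv
      rcases Set.mem_insert_iff.1 hu with rfl | hu'
      · rcases Set.mem_insert_iff.1 hv with rfl | hv'
        · exact absurd rfl huv
        · exact hcon v hv'
      · rcases Set.mem_insert_iff.1 hv with rfl | hv'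
        · rw [SimpleGraph.dist_comm]
          exact hcon u hu'
        · exact hS.1 u hu' v hv' huv
    have h2 := hS.2 h1 (Set.subset_insert _ _)
    exact hw (h2 (Set.mem_insert _ _))
  have hne : S.Nonempty := by
    by_contra h
    rw [Set.not_nonempty_iff_eq_empty] at h
    obtain ⟨u, hu, _⟩ := hmax ((1 : F), (0 : Fin m)) (by rw [h]; exact Set.notMem_empty _)
    rw [h] at hu
    exact hu
  obtain ⟨s, hs⟩ := hne
  refine ⟨W m, gr m, hinf, connected m, locFinite m, transitive m, 2, by norm_num, S, hS.1,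
    hmax, ?_⟩
  have hup : sInf {r : ℝ | ∃ A : Finset (W m), A.Nonempty ∧ (↑A : Set (W m)) ⊆ S ∧
            r = (Set.ncard {p : W m × W m | p.1 ∈ A ∧ p.2 ∈ S ∧ p.2 ∉ A ∧
                  (gr m).dist p.1 p.2 ≤ 2 * 2} : ℝ)
              / (A.card : ℝ)} ≤ ballCard 4 := by
    have hmem : ((Set.ncard {p : W m × W m | p.1 ∈ ({s} : Finset (W m)) ∧ p.2 ∈ S ∧
        p.2 ∉ ({s} : Finset (W m)) ∧ (gr m).dist p.1 p.2 ≤ 2 * 2} : ℝ)
              / ((({s} : Finset (W m)).card : ℕ) : ℝ)) ∈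
          {r : ℝ | ∃ A : Finset (W m), A.Nonempty ∧ (↑A : Set (W m)) ⊆ S ∧
            r = (Set.ncard {p : W m × W m | p.1 ∈ A ∧ p.2 ∈ S ∧ p.2 ∉ A ∧
                  (gr m).dist p.1 p.2 ≤ 2 * 2} : ℝ)
              / (A.card : ℝ)} :=
      ⟨({s} : Finset (W m)), Finset.singleton_nonempty _, by simpa using hs, rfl⟩
    refine (csInf_le ⟨0, ?_⟩ hmem).trans ?_
    · rintro r ⟨A, -, -, rfl⟩
      positivity
    · rw [Finset.card_singleton, Nat.cast_one, div_one]
      exact_mod_cast pairs_upper m 2 le_rfl S hS.1 s hs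
  have hlow : (m : ℝ) ≤ sInf {r : ℝ | ∃ A : Finset (W m), A.Nonempty ∧
            r = (Set.ncard {p : W m × W m | p.1 ∈ A ∧ p.2 ∉ A ∧ (gr m).Adj p.1 p.2} : ℝ)
              / (A.card : ℝ)} := by
    refine le_csInf ⟨_, {((1 : F), (0 : Fin m))}, Finset.singleton_nonempty _, rfl⟩ ?_
    rintro r ⟨A, hA, rfl⟩
    have h1 : (0 : ℝ) < A.card := by exact_mod_cast hA.card_pos
    rw [le_div_iff₀ h1]
    exact_mod_cast pairs_lower m A
  refine lt_of_le_of_lt hup (lt_of_lt_of_le ?_ hlow)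
  rw [hm]
  push_cast
  linarith

/-- The negation of the preceding statement: For every infinite connected locally finite vertex-transitive graph G, every k ≥ 1 and every maximal k-separated vertex set S, the Cheeger constant of the graph on S joining points at distance ≤ 2k is at least the Cheeger constant of G. -/
theorem result :
    ¬ (∀ (V : Type) (G : SimpleGraph V), Infinite V → G.Connected →
      (∀ v : V, (G.neighborSet v).Finite) →
      (∀ u v : V, ∃ φ : G ≃g G, φ u = v) →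
      ∀ k : ℕ, 1 ≤ k →
      ∀ S : Set V,
        (∀ u ∈ S, ∀ v ∈ S, u ≠ v → k ≤ G.dist u v) →
        (∀ w : V, w ∉ S → ∃ u ∈ S, G.dist w u < k) →
        sInf {r : ℝ | ∃ A : Finset V, A.Nonempty ∧
            r = (Set.ncard {p : V × V | p.1 ∈ A ∧ p.2 ∉ A ∧ G.Adj p.1 p.2} : ℝ)
              / (A.card : ℝ)}
          ≤
        sInf {r : ℝ | ∃ A : Finset V, A.Nonempty ∧ (↑A : Set V) ⊆ S ∧
            r = (Set.ncard {p : V × V | p.1 ∈ A ∧ p.2 ∈ S ∧ p.2 ∉ A ∧
                  G.dist p.1 p.2 ≤ 2 * k} : ℝ)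
              / (A.card : ℝ)}) := by
  intro H
  obtain ⟨V, G, h1, h2, h3, h4, k, hk, S, h5, h6, h7⟩ := main
  exact absurd (H V G h1 h2 h3 h4 k hk S h5 h6) (not_le.2 h7)

end Pool.Agent.S07874
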