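import Pool.Statements.S09469
import Pool.Agent.T2H46.CycPelt

set_option autoImplicit false
open Pool Pool.MP_72c5f4_co

namespace Pool.Agent.S09469

/-!
One cyclic Steiner triple system of order `n` comes from Peltesohn's difference triples. Each of its
`k = ⌊n / 6⌋` full block orbits can be replaced by the opposite orbit, independently of the others, which gives
`2 ^ k` distinct cyclic systems on `ZMod n`. An isomorphism class contains at most `n` translation-invariant
systems: if `A` is the automorphism group of a system `S` then there are at most `n |A|` permutations `σ` for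
which `σ S` is translation-invariant, because `σ` is determined by `σ⁻¹ τ σ ∈ A` (`τ` the translation by one)
and `σ 0`, and each image `σ S` is counted `|A|` times. So there are at least `2 ^ k / n` isomorphism classes.
-/

/-- For every M, all sufficiently large n with n ≡ 1 or 3 mod 6 admit at least M pairwise non-isomorphic cyclic Steiner triple systems on Z/nZ, i.e. the number of cyclic STS(n) up to isomorphism tends to infinity. -/
theorem result :
    ∀ M : ℕ, ∃ N : ℕ, ∀ n : ℕ, N ≤ n → (n % 6 = 1 ∨ n % 6 = 3) →
      ∃ B : Fin M → Finset (Finset (ZMod n)),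
        (∀ i, (∀ b ∈ B i, b.card = 3) ∧
          (∀ x y : ZMod n, x ≠ y → ∃! b : Finset (ZMod n), b ∈ B i ∧ x ∈ b ∧ y ∈ b) ∧
          (∀ b ∈ B i, b.image (fun x => x + 1) ∈ B i)) ∧
        (∀ i j, i ≠ j → ¬ ∃ σ : Equiv.Perm (ZMod n),
          ∀ b : Finset (ZMod n), b ∈ B i ↔ b.map σ.toEmbedding ∈ B j) := by
  intro M
  refine ⟨54 * M + 72, fun n hN hn => ?_⟩
  obtain ⟨k, β, h, hk⟩ := Pool.Agent.T2H46.CycPelt.exists_DF n (by omega) hn
  have hk4 : 4 ≤ k := by omega
  have hkM : 9 * M ≤ k := by omega
  have h1 := Pool.Agent.T2H46.CycPelt.sq_le_two_pow k hk4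
  have h2 : M * n ≤ 2 ^ k := by
    calc M * n ≤ M * (9 * k) := Nat.mul_le_mul_left _ (by omega)
      _ = (9 * M) * k := by ring
      _ ≤ k * k := Nat.mul_le_mul_right _ hkM
      _ ≤ 2 ^ k := h1
  exact Pool.Agent.T2H46.CycFam.main_of_DF (by omega) h M h2

end Pool.Agent.S09469
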