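import Pool.Statements.S10051
import Pool.Agent.T2H40.BR.Main

set_option autoImplicit false
open Pool Pool.MP_8cfe6a_co

namespace Pool.Agent.S10051

/-- For every finite simple graph with m edges, the sum of any k eigenvalues (with multiplicity) of its signless Laplacian D+A, in particular the k largest, is at most m + k(k+1)/2. -/
theorem result :
    ∀ (V : Type) [Fintype V] [DecidableEq V] (G : SimpleGraph V) [DecidableRel G.Adj]
      (hQ : (G.degMatrix ℝ + G.adjMatrix ℝ).IsHermitian) (s : Finset V),
      ∑ i ∈ s, hQ.eigenvalues i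
        ≤ (G.edgeFinset.card : ℝ) + (s.card : ℝ) * ((s.card : ℝ) + 1) / 2 := by
  exact Pool.Agent.T2H40.BR.final_of_bound
    (fun V _ _ P hs hid C k hk htr htop A _ hirr =>
      Pool.Agent.T2H40.BR.all_bound V P hs hid C k hk htr htop A hirr)

end Pool.Agent.S10051
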