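import Pool.Statements.S11608

set_option autoImplicit false
open Pool Pool.MP_d1f9c8_co

namespace Pool.Agent.S11608

/-- Closed under (not necessarily induced) subgraphs. -/
def Her (P : (n : ℕ) → SimpleGraph (Fin n) → Prop) : Prop :=
  ∀ (a b : ℕ) (G : SimpleGraph (Fin a)) (H : SimpleGraph (Fin b)) (f : H →g G),
    Function.Injective f → P a G → P b H

/-- The subgraph of `G` induced by `S` belongs to the class `P`. -/
def Ind (P : (n : ℕ) → SimpleGraph (Fin n) → Prop) {n : ℕ} (G : SimpleGraph (Fin n))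
    (S : Set (Fin n)) : Prop :=
  ∃ (r : ℕ) (K : SimpleGraph (Fin r)), P r K ∧ Nonempty (G.induce S ≃g K)

/-- Graphs that are edgeless or have at most two vertices. -/
def A (n : ℕ) (G : SimpleGraph (Fin n)) : Prop := n ≤ 2 ∨ ∀ x y, ¬ G.Adj x y

/-- Graphs that are bipartite or have at most four vertices. -/
def B (n : ℕ) (G : SimpleGraph (Fin n)) : Prop :=
  n ≤ 4 ∨ ∃ c : Fin n → Bool, ∀ x y, G.Adj x y → c x ≠ c y

theorem card_le {a b : ℕ} {f : Fin b → Fin a} (hf : Function.Injective f) : b ≤ a := by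
  simpa using Fintype.card_le_of_injective f hf

theorem her_A : Her A := by
  intro a b G H f hf h
  rcases h with h | h
  · exact Or.inl ((card_le hf).trans h)
  · exact Or.inr fun x y hxy => h _ _ (f.map_adj hxy)

theorem her_B : Her B := by
  intro a b G H f hf h
  rcases h with h | ⟨c, hc⟩
  · exact Or.inl ((card_le hf).trans h)
  · exact Or.inr ⟨fun x => c (f x), fun x y hxy => hc _ _ (f.map_adj hxy)⟩

theorem Ind.get {P : (n : ℕ) → SimpleGraph (Fin n) → Prop} (hP : Her P) {n : ℕ}
    {G : SimpleGraph (Fin n)} {S : Set (Fin n)} (h : Ind P G S) {b : ℕ}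
    (H : SimpleGraph (Fin b)) (g : Fin b → Fin n) (hg : Function.Injective g)
    (hS : ∀ x, g x ∈ S) (hadj : ∀ x y, H.Adj x y → G.Adj (g x) (g y)) : P b H := by
  obtain ⟨r, K, hK, ⟨e⟩⟩ := h
  let f : H →g G.induce S :=
    { toFun := fun x => ⟨g x, hS x⟩
      map_rel' := fun {x y} hxy => hadj x y hxy }
  have hf : Function.Injective f := fun x y hxy => hg (congrArg Subtype.val hxy)
  exact hP r b K H (e.toHom.comp f) (e.injective.comp hf) hK

theorem Ind.of {P : (n : ℕ) → SimpleGraph (Fin n) → Prop} (hP : Her P) {n : ℕ}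
    {G : SimpleGraph (Fin n)} {S : Set (Fin n)} {r : ℕ} {K : SimpleGraph (Fin r)}
    (hK : P r K) (g : Fin n → Fin r) (hg : ∀ x ∈ S, ∀ y ∈ S, g x = g y → x = y)
    (hadj : ∀ x ∈ S, ∀ y ∈ S, G.Adj x y → K.Adj (g x) (g y)) : Ind P G S := by
  classical
  let e : S ≃ Fin (Fintype.card S) := Fintype.equivFin S
  let K' : SimpleGraph (Fin (Fintype.card S)) := (G.induce S).comap e.symm
  have e' : G.induce S ≃g K' :=
    { toEquiv := e
      map_rel_iff' := by intro a b; simp [K'] }
  refine ⟨_, K', ?_, ⟨e'⟩⟩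
  let f : K' →g K :=
    { toFun := fun x => g (e.symm x).1
      map_rel' := fun {x y} hxy => hadj _ (e.symm x).2 _ (e.symm y).2 hxy }
  refine hP _ _ K K' f ?_ hK
  intro x y hxy
  exact e.symm.injective (Subtype.ext (hg _ (e.symm x).2 _ (e.symm y).2 hxy))

theorem pig3 : ∀ p : Fin 3 → Bool, ∃ a b, a ≠ b ∧ p a = p b := by decide

theorem pig4 : ∀ p : Fin 4 → Bool, (∃ a b, a ≠ b ∧ p a = true ∧ p b = true) ∨
    (∃ a b c, a ≠ b ∧ b ≠ c ∧ a ≠ c ∧ p a = false ∧ p b = false ∧ p c = false) := by decide

/-- If the class `A` were the product of `C` and `D` then `C` would not contain the edgeless graph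
on two vertices. -/
theorem A_aux {C D : (n : ℕ) → SimpleGraph (Fin n) → Prop} (hC : Her C) (hD : Her D)
    (hD1 : D 1 ⊥)
    (h : ∀ (n : ℕ) (G : SimpleGraph (Fin n)), (∃ S : Set (Fin n), Ind C G S ∧ Ind D G Sᶜ) → A n G) :
    ¬ C 2 ⊥ := by
  intro hC2
  let G : SimpleGraph (Fin 3) :=
    { Adj := fun x y => (x = 2 ∧ y ≠ 2) ∨ (x ≠ 2 ∧ y = 2)
      symm := ⟨fun x y h => by tauto⟩
      loopless := ⟨fun x h => by tauto⟩ }
  have hG : A 3 G := by
    refine h 3 G ⟨{x | x ≠ 2}, ?_, ?_⟩
    · refine Ind.of hC hC2 (fun x => if x = 0 then 0 else 1) ?_ ?_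
      · intro x hx y hy
        simp only [Set.mem_ofPred_eq] at hx hy
        revert x y; decide
      · intro x hx y hy hxy
        simp only [Set.mem_ofPred_eq] at hx hy
        rcases hxy with ⟨h1, -⟩ | ⟨-, h1⟩
        · exact absurd h1 hx
        · exact absurd h1 hy
    · refine Ind.of hD hD1 (fun _ => 0) ?_ ?_
      · intro x hx y hy _
        simp only [Set.mem_compl_iff, Set.mem_ofPred_eq, not_not] at hx hy
        rw [hx, hy]
      · intro x hx y hy hxy
        simp only [Set.mem_compl_iff, Set.mem_ofPred_eq, not_not] at hx hy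
        subst hx; subst hy
        exact absurd hxy G.irrefl
  rcases hG with h1 | h1
  · omega
  · exact h1 2 0 (Or.inl ⟨rfl, by decide⟩)

theorem swap {C D : (n : ℕ) → SimpleGraph (Fin n) → Prop} {n : ℕ} {G : SimpleGraph (Fin n)}
    (h : ∃ S : Set (Fin n), Ind D G S ∧ Ind C G Sᶜ) : ∃ S : Set (Fin n), Ind C G S ∧ Ind D G Sᶜ := by
  obtain ⟨S, h1, h2⟩ := h
  exact ⟨Sᶜ, h2, by rwa [compl_compl]⟩

/-- Irreducibility. -/
def Irr (P : (n : ℕ) → SimpleGraph (Fin n) → Prop) : Prop :=
  ∀ C D : (n : ℕ) → SimpleGraph (Fin n) → Prop, Her C → Her D → C 1 ⊥ → D 1 ⊥ →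
    ¬ ∀ (n : ℕ) (G : SimpleGraph (Fin n)), (P n G ↔ ∃ S : Set (Fin n), Ind C G S ∧ Ind D G Sᶜ)

theorem irr_A : Irr A := by
  classical
  intro C D hC hD hC1 hD1 h
  have h0 : A 3 ⊥ := Or.inr (by simp)
  obtain ⟨S, h1, h2⟩ := (h 3 ⊥).1 h0
  have hc := A_aux hC hD hD1 (fun n G => (h n G).2)
  have hd := A_aux hD hC hC1 (fun n G hG => (h n G).2 (swap hG))
  obtain ⟨a, b, hab, hp⟩ := pig3 (fun i => decide (i ∈ S))
  have hinj : Function.Injective (![a, b] : Fin 2 → Fin 3) := by
    intro x y hxy
    fin_cases x <;> fin_cases y <;> simp_all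
  by_cases ha : a ∈ S
  · have hb : b ∈ S := by simpa [ha] using hp.symm
    refine hc (h1.get hC ⊥ ![a, b] hinj ?_ (by simp))
    intro x; fin_cases x <;> simp [ha, hb]
  · have hb : b ∉ S := by simpa [ha] using hp.symm
    refine hd (h2.get hD ⊥ ![a, b] hinj ?_ (by simp))
    intro x; fin_cases x <;> simp [ha, hb]

theorem tri {n : ℕ} {G : SimpleGraph (Fin n)} (x y z : Fin n) (hxy : G.Adj x y)
    (hyz : G.Adj y z) (hxz : G.Adj x z) (hn : 4 < n) : ¬ B n G := by
  rintro (h | ⟨c, hc⟩)
  · omega
  · have h1 := hc x y hxy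
    have h2 := hc y z hyz
    have h3 := hc x z hxz
    revert h1 h2 h3
    cases c x <;> cases c y <;> cases c z <;> simp

theorem B_aux {C D : (n : ℕ) → SimpleGraph (Fin n) → Prop} (hC : Her C) (hD : Her D)
    (hD1 : D 1 ⊥)
    (h : ∀ (n : ℕ) (G : SimpleGraph (Fin n)), B n G ↔ ∃ S : Set (Fin n), Ind C G S ∧ Ind D G Sᶜ) :
    ¬ C 2 ⊤ := by
  classical
  intro hC2
  -- `D` does not contain the edgeless graph on three vertices
  have hD3 : ¬ D 3 ⊥ := by
    intro hD3
    let G : SimpleGraph (Fin 5) :=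
      { Adj := fun x y => x ≠ y ∧ (x < 2 ∨ y < 2)
        symm := ⟨fun x y h => by tauto⟩
        loopless := ⟨fun x h => by tauto⟩ }
    have hG : B 5 G := by
      refine (h 5 G).2 ⟨{x | x < 2}, ?_, ?_⟩
      · refine Ind.of hC hC2 (fun x => if x = 0 then 0 else 1) ?_ ?_
        · intro x hx y hy
          simp only [Set.mem_ofPred_eq] at hx hy
          revert x y; decide
        · intro x hx y hy hxy
          have hne : x ≠ y := hxy.1
          simp only [Set.mem_ofPred_eq] at hx hy
          simp only [SimpleGraph.top_adj]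
          clear hxy
          revert x y; decide
      · refine Ind.of hD hD3 (fun x => if x = 2 then 0 else if x = 3 then 1 else 2) ?_ ?_
        · intro x hx y hy
          simp only [Set.mem_compl_iff, Set.mem_ofPred_eq] at hx hy
          revert x y; decide
        · intro x hx y hy hxy
          simp only [Set.mem_compl_iff, Set.mem_ofPred_eq] at hx hy
          rcases hxy.2 with h1 | h1
          · exact absurd h1 hx
          · exact absurd h1 hy
    refine tri (G := G) 0 1 2 ?_ ?_ ?_ (by norm_num) hG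
    · exact ⟨by decide, by decide⟩
    · exact ⟨by decide, by decide⟩
    · exact ⟨by decide, by decide⟩
  -- the complete bipartite graph with parts of size four
  let K : SimpleGraph (Fin 8) :=
    { Adj := fun x y => ¬ ((x < 4) ↔ (y < 4))
      symm := ⟨fun x y h => by tauto⟩
      loopless := ⟨fun x h => by tauto⟩ }
  have hK : B 8 K := Or.inr ⟨fun x => decide (x < 4), fun x y hxy => by
    intro he
    apply hxy
    simpa using he⟩
  obtain ⟨S, h1, h2⟩ := (h 8 K).1 hK
  have key : ∀ g : Fin 4 → Fin 8, Function.Injective g → (∀ x y, ¬ K.Adj (g x) (g y)) →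
      ∃ a b, a ≠ b ∧ g a ∈ S ∧ g b ∈ S := by
    intro g hg hK
    rcases pig4 (fun i => decide (g i ∈ S)) with ⟨a, b, hab, ha, hb⟩ | ⟨a, b, c, hab, hbc, hac, ha, hb, hc⟩
    · exact ⟨a, b, hab, by simpa using ha, by simpa using hb⟩
    · exfalso
      simp only [decide_eq_false_iff_not] at ha hb hc
      refine hD3 (h2.get hD ⊥ (fun i => g (![a, b, c] i)) ?_ ?_ (by simp))
      · apply hg.comp
        intro x y hxy
        fin_cases x <;> fin_cases y <;> simp_all
      · intro x; fin_cases x <;> simp [ha, hb, hc]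
  obtain ⟨a, b, hab, ha, hb⟩ := key (fun i => ⟨i.1, by omega⟩)
    (fun x y hxy => by simpa [Fin.ext_iff] using hxy)
    (fun x y hxy => by
      apply hxy
      have := x.2; have := y.2
      simp only [Fin.lt_def]
      show (_ < 4) ↔ (_ < 4)
      omega)
  obtain ⟨c, d, hcd, hc, hd⟩ := key (fun i => ⟨i.1 + 4, by omega⟩)
    (fun x y hxy => by simpa [Fin.ext_iff] using hxy)
    (fun x y hxy => by
      apply hxy
      have := x.2; have := y.2
      simp only [Fin.lt_def]
      show (_ < 4) ↔ (_ < 4)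
      omega)
  -- so `C` contains the four-cycle
  let Q : SimpleGraph (Fin 4) :=
    { Adj := fun x y => ¬ ((x < 2) ↔ (y < 2))
      symm := ⟨fun x y h => by tauto⟩
      loopless := ⟨fun x h => by tauto⟩ }
  have hQ : C 4 Q := by
    refine h1.get hC Q ![⟨a.1, by omega⟩, ⟨b.1, by omega⟩, ⟨c.1 + 4, by omega⟩, ⟨d.1 + 4, by omega⟩] ?_ ?_ ?_
    · have h3 : a.1 ≠ b.1 := fun h => hab (Fin.ext h)
      have h4 : c.1 ≠ d.1 := fun h => hcd (Fin.ext h)
      have := a.2; have := b.2; have := c.2; have := d.2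
      intro x y hxy
      fin_cases x <;> fin_cases y <;> simp [Fin.ext_iff] at hxy ⊢ <;> omega
    · intro x; fin_cases x
      · exact ha
      · exact hb
      · exact hc
      · exact hd
    · have := a.2; have := b.2; have := c.2; have := d.2
      intro x y hxy
      fin_cases x <;> fin_cases y <;> simp [Q, K, Fin.lt_def] at hxy ⊢ <;> omega
  let W : SimpleGraph (Fin 5) :=
    { Adj := fun x y => x ≠ y ∧ (x = 4 ∨ y = 4 ∨ ¬ ((x < 2) ↔ (y < 2)))
      symm := ⟨fun x y h => by tauto⟩
      loopless := ⟨fun x h => by tauto⟩ }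
  have hW : B 5 W := by
    refine (h 5 W).2 ⟨{x | x ≠ 4}, ?_, ?_⟩
    · refine Ind.of hC hQ (fun x => if x = 0 then 0 else if x = 1 then 1 else if x = 2 then 2 else 3)
        ?_ ?_
      · intro x hx y hy
        simp only [Set.mem_ofPred_eq] at hx hy
        revert x y; decide
      · intro x hx y hy hxy
        simp only [Set.mem_ofPred_eq] at hx hy
        have h3 : ¬ ((x < 2) ↔ (y < 2)) := by
          rcases hxy.2 with h3 | h3 | h3
          · exact absurd h3 hx
          · exact absurd h3 hy
          · exact h3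
        show ¬ ((_ < 2) ↔ (_ < 2))
        clear hxy
        revert x y; decide
    · refine Ind.of hD hD1 (fun _ => 0) ?_ ?_
      · intro x hx y hy _
        simp only [Set.mem_compl_iff, Set.mem_ofPred_eq, not_not] at hx hy
        rw [hx, hy]
      · intro x hx y hy hxy
        simp only [Set.mem_compl_iff, Set.mem_ofPred_eq, not_not] at hx hy
        subst hx; subst hy
        exact absurd hxy W.irrefl
  refine tri (G := W) 0 2 4 ?_ ?_ ?_ (by norm_num) hW
  · exact ⟨by decide, by decide⟩
  · exact ⟨by decide, by decide⟩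
  · exact ⟨by decide, by decide⟩

theorem irr_B : Irr B := by
  classical
  intro C D hC hD hC1 hD1 h
  have h0 : B 4 ⊤ := Or.inl le_rfl
  obtain ⟨S, h1, h2⟩ := (h 4 ⊤).1 h0
  have hc := B_aux hC hD hD1 h
  have hd := B_aux hD hC hC1 (fun n G => (h n G).trans ⟨swap, swap⟩)
  obtain ⟨a, b, hab, hp⟩ := pig3 (fun i => decide (Fin.castSucc i ∈ S))
  have hinj : Function.Injective (fun i => Fin.castSucc ((![a, b] : Fin 2 → Fin 3) i)) := by
    intro x y hxy
    fin_cases x <;> fin_cases y <;> simp_all
  have hadj : ∀ x y : Fin 2, (⊤ : SimpleGraph (Fin 2)).Adj x y → (⊤ : SimpleGraph (Fin 4)).Adj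
      (Fin.castSucc ((![a, b] : Fin 2 → Fin 3) x)) (Fin.castSucc ((![a, b] : Fin 2 → Fin 3) y)) := by
    intro x y hxy
    rw [SimpleGraph.top_adj] at hxy ⊢
    exact fun h => hxy (hinj h)
  by_cases ha : Fin.castSucc a ∈ S
  · have hb : Fin.castSucc b ∈ S := by simpa [ha] using hp.symm
    refine hc (h1.get hC ⊤ _ hinj ?_ hadj)
    intro x; fin_cases x <;> simp [ha, hb]
  · have hb : Fin.castSucc b ∉ S := by simpa [ha] using hp.symm
    refine hd (h2.get hD ⊤ _ hinj ?_ hadj)
    intro x; fin_cases x <;> simp [ha, hb]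

/-- Membership of an induced subgraph in `A`. -/
theorem ind_A {n : ℕ} (G : SimpleGraph (Fin n)) (S : Finset (Fin n)) :
    Ind A G S ↔ S.card ≤ 2 ∨ ∀ x ∈ S, ∀ y ∈ S, ¬ G.Adj x y := by
  classical
  constructor
  · rintro ⟨r, K, hK, ⟨e⟩⟩
    rcases hK with h | h
    · left
      have := Fintype.card_congr e.toEquiv
      simp only [Fintype.card_fin] at this
      have h2 : Fintype.card (↑S : Set (Fin n)) = S.card := by simp
      omega
    · right
      intro x hx y hy hxy
      exact h _ _ (e.map_adj_iff.2 (show (G.induce (↑S : Set (Fin n))).Adj ⟨x, hx⟩ ⟨y, hy⟩ from hxy))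
  · intro h
    let e : (↑S : Set (Fin n)) ≃ Fin (Fintype.card (↑S : Set (Fin n))) := Fintype.equivFin _
    let K' : SimpleGraph (Fin (Fintype.card (↑S : Set (Fin n)))) :=
      (G.induce (↑S : Set (Fin n))).comap e.symm
    have e' : G.induce (↑S : Set (Fin n)) ≃g K' :=
      { toEquiv := e
        map_rel_iff' := by intro a b; simp [K'] }
    refine ⟨_, K', ?_, ⟨e'⟩⟩
    rcases h with h | h
    · left; simpa using h
    · right
      intro x y hxy
      exact h _ (e.symm x).2 _ (e.symm y).2 hxy

theorem ind_B {n : ℕ} (G : SimpleGraph (Fin n)) (S : Finset (Fin n)) :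
    Ind B G S ↔ S.card ≤ 4 ∨ ∃ c : Fin n → Bool, ∀ x ∈ S, ∀ y ∈ S, G.Adj x y → c x ≠ c y := by
  classical
  constructor
  · rintro ⟨r, K, hK, ⟨e⟩⟩
    rcases hK with h | ⟨c, hc⟩
    · left
      have := Fintype.card_congr e.toEquiv
      simp only [Fintype.card_fin] at this
      have h2 : Fintype.card (↑S : Set (Fin n)) = S.card := by simp
      omega
    · right
      refine ⟨fun x => if hx : x ∈ S then c (e ⟨x, hx⟩) else false, ?_⟩
      intro x hx y hy hxy
      simp only [hx, hy, dif_pos]
      exact hc _ _ (e.map_adj_iff.2 (show (G.induce (↑S : Set (Fin n))).Adj ⟨x, hx⟩ ⟨y, hy⟩ from hxy))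
  · intro h
    let e : (↑S : Set (Fin n)) ≃ Fin (Fintype.card (↑S : Set (Fin n))) := Fintype.equivFin _
    let K' : SimpleGraph (Fin (Fintype.card (↑S : Set (Fin n)))) :=
      (G.induce (↑S : Set (Fin n))).comap e.symm
    have e' : G.induce (↑S : Set (Fin n)) ≃g K' :=
      { toEquiv := e
        map_rel_iff' := by intro a b; simp [K'] }
    refine ⟨_, K', ?_, ⟨e'⟩⟩
    rcases h with h | ⟨c, hc⟩
    · left; simpa using h
    · right
      exact ⟨fun x => c (e.symm x).1, fun x y hxy => hc _ (e.symm x).2 _ (e.symm y).2 hxy⟩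

/-- Parts of a colouring as finsets. -/
theorem part_eq {n m : ℕ} (c : Fin n → Fin m) (i : Fin m) :
    {v | c v = i} = (↑(Finset.univ.filter fun v => c v = i) : Set (Fin n)) := by
  ext v; simp

/-- One of two parts of type `A` can be merged. -/
theorem merge {n : ℕ} (G : SimpleGraph (Fin n)) (S T : Finset (Fin n))
    (h : (S.card ≤ 2 ∧ T.card ≤ 2) ∨ ((∀ x ∈ S, ∀ y ∈ S, ¬ G.Adj x y) ∧
      (∀ x ∈ T, ∀ y ∈ T, ¬ G.Adj x y))) : Ind B G (↑(S ∪ T) : Set (Fin n)) := by
  classical
  rw [ind_B]
  rcases h with ⟨h1, h2⟩ | ⟨h1, h2⟩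
  · left
    exact (Finset.card_union_le _ _).trans (by omega)
  · right
    refine ⟨fun x => decide (x ∈ S), ?_⟩
    intro x hx y hy hxy he
    rw [Finset.mem_union] at hx hy
    by_cases hxS : x ∈ S
    · have hyS : y ∈ S := by simpa [hxS] using he.symm
      exact h1 x hxS y hyS hxy
    · have hyS : y ∉ S := by simpa [hxS] using he.symm
      exact h2 x (hx.resolve_left hxS) y (hy.resolve_left hyS) hxy

theorem product_eq (n : ℕ) (G : SimpleGraph (Fin n)) :
    (∃ c : Fin n → Fin 2, ∀ i : Fin 2, Ind ((![A, B] : Fin 2 → _) i) G {v | c v = i}) ↔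
    (∃ c : Fin n → Fin 3, ∀ _j : Fin 3, Ind A G {v | c v = _j}) := by
  classical
  constructor
  · rintro ⟨c, hc⟩
    have h0 : Ind A G {v | c v = 0} := hc 0
    have h1 : Ind B G {v | c v = 1} := hc 1
    -- split the second part
    suffices hs : ∃ s : Fin n → Bool, Ind A G {v | c v = 1 ∧ s v = true} ∧
        Ind A G {v | c v = 1 ∧ s v = false} by
      obtain ⟨s, hs1, hs2⟩ := hs
      refine ⟨fun v => if c v = 0 then 0 else if s v then 1 else 2, ?_⟩
      have hcv : ∀ v, c v = 0 ∨ c v = 1 := by
        intro v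
        generalize c v = w
        revert w
        decide
      intro j
      fin_cases j
      · convert h0 using 1
        ext v
        rcases hcv v with h | h <;> cases hs : s v <;> simp [h, hs]
      · convert hs1 using 1
        ext v
        rcases hcv v with h | h <;> cases hs : s v <;> simp [h, hs]
      · convert hs2 using 1
        ext v
        rcases hcv v with h | h <;> cases hs : s v <;> simp [h, hs]
    rw [part_eq, ind_B] at h1
    set T := Finset.univ.filter fun v => c v = 1 with hT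
    have e : ∀ (s : Fin n → Bool) (b : Bool), {v | c v = 1 ∧ s v = b} =
        (↑(T.filter fun v => s v = b) : Set (Fin n)) := by
      intro s b; ext v; simp [hT]
    rcases h1 with h1 | ⟨s, hs⟩
    · obtain ⟨U, hU, hU2⟩ : ∃ U ⊆ T, U.card = min 2 T.card :=
        Finset.exists_subset_card_eq (min_le_right _ _)
      refine ⟨fun v => decide (v ∈ U), ?_, ?_⟩
      · rw [e, ind_A]
        left
        have : (T.filter fun v => decide (v ∈ U) = true) = U := by
          ext v; simp only [decide_eq_true_eq, Finset.mem_filter]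
          exact ⟨fun h => h.2, fun h => ⟨hU h, h⟩⟩
        rw [this, hU2]; exact min_le_left _ _
      · rw [e, ind_A]
        left
        have : (T.filter fun v => decide (v ∈ U) = false) = T \ U := by
          ext v; simp
        rw [this, Finset.card_sdiff_of_subset hU, hU2]
        omega
    · refine ⟨s, ?_, ?_⟩
      · rw [e, ind_A]
        right
        intro x hx y hy hxy
        rw [Finset.mem_filter] at hx hy
        exact hs x hx.1 y hy.1 hxy (hx.2.trans hy.2.symm)
      · rw [e, ind_A]
        right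
        intro x hx y hy hxy
        rw [Finset.mem_filter] at hx hy
        exact hs x hx.1 y hy.1 hxy (hx.2.trans hy.2.symm)
  · rintro ⟨c, hc⟩
    -- two of the three parts have the same type
    have ht : ∀ j, (Finset.univ.filter fun v => c v = j).card ≤ 2 ∨
        ∀ x ∈ (Finset.univ.filter fun v => c v = j), ∀ y ∈ (Finset.univ.filter fun v => c v = j),
          ¬ G.Adj x y := by
      intro j
      have := hc j
      rwa [part_eq, ind_A] at this
    obtain ⟨a, b, hab, hp⟩ := pig3
      (fun j => decide ((Finset.univ.filter fun v => c v = j).card ≤ 2))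
    obtain ⟨d, hda, hdb⟩ : ∃ d : Fin 3, d ≠ a ∧ d ≠ b := by
      clear hp ht hc
      revert a b; decide
    have hcov : ∀ j : Fin 3, j = a ∨ j = b ∨ j = d := by
      clear hp ht hc
      revert a b d; decide
    refine ⟨fun v => if c v = d then 0 else 1, ?_⟩
    intro i
    fin_cases i
    · have : {v | (if c v = d then (0 : Fin 2) else 1) = 0} = {v | c v = d} := by
        ext v; by_cases h : c v = d <;> simp [h]
      show Ind A G {v | (if c v = d then (0 : Fin 2) else 1) = 0}
      rw [this]
      exact hc d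
    · have : {v | (if c v = d then (0 : Fin 2) else 1) = 1} =
          (↑((Finset.univ.filter fun v => c v = a) ∪ (Finset.univ.filter fun v => c v = b)) :
            Set (Fin n)) := by
        ext v
        simp only [Set.mem_ofPred_eq, Finset.coe_union, Finset.coe_filter, Finset.mem_univ,
          true_and, Set.mem_union]
        constructor
        · intro h
          have h3 : c v ≠ d := by
            intro h4; simp [h4] at h
          rcases hcov (c v) with h4 | h4 | h4
          · exact Or.inl h4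
          · exact Or.inr h4
          · exact absurd h4 h3
        · rintro (h | h)
          · rw [h]; simp [hda.symm]
          · rw [h]; simp [hdb.symm]
      show Ind B G {v | (if c v = d then (0 : Fin 2) else 1) = 1}
      rw [this]
      apply merge
      · rcases ht a with ha | ha
        · left
          have hb : (Finset.univ.filter fun v => c v = b).card ≤ 2 := by
            simpa [ha] using hp.symm
          exact ⟨ha, hb⟩
        · rcases ht b with hb | hb
          · left
            have ha : (Finset.univ.filter fun v => c v = a).card ≤ 2 := by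
              simpa [hb] using hp
            exact ⟨ha, hb⟩
          · right
            exact ⟨ha, hb⟩

/-- The negation of the preceding statement: Among subgraph-closed classes of finite graphs, with product = vertex partition into parts in the factors, any two factorizations of a class into irreducible factors (contain K1, not a product of two such classes) agree up to reordering. -/
theorem result :
    ¬ (∀ (m k : ℕ) (Ps : Fin m → (n : ℕ) → SimpleGraph (Fin n) → Prop)
      (Qs : Fin k → (n : ℕ) → SimpleGraph (Fin n) → Prop),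
      (∀ i : Fin m,
        (∀ (a b : ℕ) (G : SimpleGraph (Fin a)) (H : SimpleGraph (Fin b)) (f : H →g G),
          Function.Injective f → Ps i a G → Ps i b H) ∧
        Ps i 1 ⊥ ∧
        ∀ A B : (n : ℕ) → SimpleGraph (Fin n) → Prop,
          (∀ (a b : ℕ) (G : SimpleGraph (Fin a)) (H : SimpleGraph (Fin b)) (f : H →g G),
            Function.Injective f → A a G → A b H) →
          (∀ (a b : ℕ) (G : SimpleGraph (Fin a)) (H : SimpleGraph (Fin b)) (f : H →g G),
            Function.Injective f → B a G → B b H) →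
          A 1 ⊥ → B 1 ⊥ →
          ¬ ∀ (n : ℕ) (G : SimpleGraph (Fin n)),
            (Ps i n G ↔ ∃ S : Set (Fin n),
              (∃ (r : ℕ) (K : SimpleGraph (Fin r)), A r K ∧ Nonempty (G.induce S ≃g K)) ∧
              (∃ (r : ℕ) (K : SimpleGraph (Fin r)), B r K ∧ Nonempty (G.induce Sᶜ ≃g K)))) →
      (∀ j : Fin k,
        (∀ (a b : ℕ) (G : SimpleGraph (Fin a)) (H : SimpleGraph (Fin b)) (f : H →g G),
          Function.Injective f → Qs j a G → Qs j b H) ∧
        Qs j 1 ⊥ ∧
        ∀ A B : (n : ℕ) → SimpleGraph (Fin n) → Prop,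
          (∀ (a b : ℕ) (G : SimpleGraph (Fin a)) (H : SimpleGraph (Fin b)) (f : H →g G),
            Function.Injective f → A a G → A b H) →
          (∀ (a b : ℕ) (G : SimpleGraph (Fin a)) (H : SimpleGraph (Fin b)) (f : H →g G),
            Function.Injective f → B a G → B b H) →
          A 1 ⊥ → B 1 ⊥ →
          ¬ ∀ (n : ℕ) (G : SimpleGraph (Fin n)),
            (Qs j n G ↔ ∃ S : Set (Fin n),
              (∃ (r : ℕ) (K : SimpleGraph (Fin r)), A r K ∧ Nonempty (G.induce S ≃g K)) ∧
              (∃ (r : ℕ) (K : SimpleGraph (Fin r)), B r K ∧ Nonempty (G.induce Sᶜ ≃g K)))) →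
      (∀ (n : ℕ) (G : SimpleGraph (Fin n)),
        (∃ c : Fin n → Fin m, ∀ i : Fin m, ∃ (r : ℕ) (K : SimpleGraph (Fin r)),
            Ps i r K ∧ Nonempty (G.induce {v | c v = i} ≃g K)) ↔
        (∃ c : Fin n → Fin k, ∀ j : Fin k, ∃ (r : ℕ) (K : SimpleGraph (Fin r)),
            Qs j r K ∧ Nonempty (G.induce {v | c v = j} ≃g K))) →
      ∃ σ : Fin m ≃ Fin k, ∀ (i : Fin m) (n : ℕ) (G : SimpleGraph (Fin n)),
        (Ps i n G ↔ Qs (σ i) n G)) := by
  intro hyp
  have hP : ∀ i : Fin 2, Her ((![A, B] : Fin 2 → _) i) ∧ ((![A, B] : Fin 2 → _) i) 1 ⊥ ∧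
      Irr ((![A, B] : Fin 2 → _) i) := by
    intro i
    fin_cases i
    · exact ⟨her_A, Or.inl (by norm_num), irr_A⟩
    · exact ⟨her_B, Or.inl (by norm_num), irr_B⟩
  obtain ⟨σ, -⟩ := hyp 2 3 ![A, B] (fun _ => A) hP
    (fun _ => ⟨her_A, Or.inl (by norm_num), irr_A⟩) product_eq
  have := Fintype.card_congr σ
  simp at this

end Pool.Agent.S11608
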