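import Pool.Statements.S13150
import Pool.Agent.T2H17.HomeoShift

set_option autoImplicit false
open Pool Pool.MP_4f0e62_gt

namespace Pool.Agent.S13150


/-- The digit description of the Menger compactum. -/
def Men (n : ℕ) : Set (Fin (2 * n + 1) → ℝ) :=
  {y : Fin (2 * n + 1) → ℝ |
            ∀ k : ℕ, ∃ a : Fin (2 * n + 1) → ℕ,
              (∀ i, a i < 3 ^ k ∧ (a i : ℝ) / 3 ^ k ≤ y i ∧ y i ≤ ((a i : ℝ) + 1) / 3 ^ k) ∧
              ∀ j < k, (Finset.univ.filter (fun i => a i / 3 ^ j % 3 = 1)).card ≤ n}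

lemma men_closed (n : ℕ) : IsClosed (Men n) := by
  have h : Men n = ⋂ k : ℕ, ⋃ a ∈ {a : Fin (2 * n + 1) → ℕ | (∀ i, a i < 3 ^ k) ∧
      ∀ j < k, (Finset.univ.filter (fun i => a i / 3 ^ j % 3 = 1)).card ≤ n},
      ⋂ i, {y : Fin (2 * n + 1) → ℝ | (a i : ℝ) / 3 ^ k ≤ y i ∧ y i ≤ ((a i : ℝ) + 1) / 3 ^ k} := by
    ext y
    simp only [Men, Set.mem_ofPred_eq, Set.mem_iInter, Set.mem_iUnion, exists_prop]
    constructor
    · intro h k
      obtain ⟨a, h1, h2⟩ := h k
      exact ⟨a, ⟨fun i => (h1 i).1, h2⟩, fun i => (h1 i).2⟩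
    · intro h k
      obtain ⟨a, ⟨h1, h2⟩, h3⟩ := h k
      exact ⟨a, fun i => ⟨h1 i, h3 i⟩, h2⟩
  rw [h]
  refine isClosed_iInter fun k => ?_
  refine Set.Finite.isClosed_biUnion ?_ ?_
  · refine Set.Finite.subset (Set.Finite.pi' (fun _ : Fin (2 * n + 1) => Set.finite_Iio (3 ^ k))) ?_
    intro a ha i
    exact ha.1 i
  · intro a _
    refine isClosed_iInter fun i => ?_
    exact (isClosed_le continuous_const (continuous_apply i)).inter
      (isClosed_le (continuous_apply i) continuous_const)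

lemma men_zero (n : ℕ) : (0 : Fin (2 * n + 1) → ℝ) ∈ Men n := by
  intro k
  refine ⟨0, fun i => ⟨by positivity, ?_, ?_⟩, ?_⟩
  · simp
  · simp
  · intro j _
    simp

/-- The negation of the preceding statement: For every n ≥ 1 and every nonempty separable metrizable space locally homeomorphic to open subsets of the n-dimensional Menger compactum, its homeomorphism group with the compact-open topology is homeomorphic to complete Erdős space. -/
theorem result :
    ¬ (∀ (n : ℕ), 1 ≤ n →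
    ∀ (M : Type) [TopologicalSpace M] [TopologicalSpace.MetrizableSpace M]
      [TopologicalSpace.SeparableSpace M] [Nonempty M],
      (∀ x : M, ∃ V : Set M, IsOpen V ∧ x ∈ V ∧
        ∃ U : Set {y : Fin (2 * n + 1) → ℝ |
            ∀ k : ℕ, ∃ a : Fin (2 * n + 1) → ℕ,
              (∀ i, a i < 3 ^ k ∧ (a i : ℝ) / 3 ^ k ≤ y i ∧ y i ≤ ((a i : ℝ) + 1) / 3 ^ k) ∧
              ∀ j < k, (Finset.univ.filter (fun i => a i / 3 ^ j % 3 = 1)).card ≤ n},
          IsOpen U ∧ Nonempty (V ≃ₜ U)) →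
      Nonempty (@Homeomorph (M ≃ₜ M)
        {x : lp (fun _ : ℕ => ℝ) 2 | ∀ i : ℕ, (x : ℕ → ℝ) i = 0 ∨
            ∃ k : ℕ, 0 < k ∧ (x : ℕ → ℝ) i = 1 / (k : ℝ)}
        (TopologicalSpace.induced (fun g : M ≃ₜ M => ContinuousMap.mk (⇑g) g.continuous)
          inferInstance)
        inferInstance)) := by
  intro H
  have hcl : IsClosed (Men 1) := men_closed 1
  have : LocallyCompactSpace (Men 1) := hcl.isClosedEmbedding_subtypeVal.locallyCompactSpace
  have : Nonempty (Men 1) := ⟨⟨0, men_zero 1⟩⟩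
  obtain ⟨Φ⟩ := H 1 le_rfl (ℕ × Men 1) (by
    intro x
    refine ⟨{p | p.1 = x.1}, (isOpen_discrete {x.1}).preimage continuous_fst, rfl, Set.univ,
      isOpen_univ, ⟨?_⟩⟩
    exact
      { toFun := fun p => ⟨p.1.2, Set.mem_univ _⟩
        invFun := fun y => ⟨(x.1, y.1), rfl⟩
        left_inv := fun p => Subtype.ext (Prod.ext p.2.symm rfl)
        right_inv := fun y => rfl
        continuous_toFun := (continuous_snd.comp continuous_subtype_val).subtype_mk _
        continuous_invFun := (continuous_const.prodMk continuous_subtype_val).subtype_mk _ })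
  exact Pool.Agent.T2H17.not_homeo (X := Men 1) Φ

end Pool.Agent.S13150
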