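import Pool.Statements.S13589
import Pool.Agent.T2H59.Steiner.Sets

set_option autoImplicit false
open Pool Pool.MP_93ef73_gt

namespace Pool.Agent.S13589

open Pool.Agent.T2H59.Steiner MeasureTheory
open scoped ENNReal

/-!
Let `s = √3`. The four corners `a 0, ..., a 3` of a trapezoid have two Steiner trees of length `4 s`,
the tree `TT` with the Steiner points `p = 0` and `q` and the tree `SS` with the Steiner points `u`
and `v`; the point `p` is in the interior of the edge from `u` to `v` of `SS`. Let `A` consist of the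
corners and `p`, and let `M` consist of `q` and of the points `m i` at distance `r = 1 / 100` from the
corners in the directions opposite to the edges of `TT`.
-/

/-- the five terminals -/
noncomputable def ptsA : Fin 5 → E2 := ![p, a 0, a 1, a 2, a 3]

/-- the five points of `M` -/
noncomputable def ptsM : Fin 5 → E2 := ![q, m 0, m 1, m 2, m 3]

theorem injA : Function.Injective ptsA := by
  have h1 := s_lb
  have h2 := s_ub
  have key : Function.Injective fun i => (ptsA i) 0 + 10 * (ptsA i) 1 := by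
    intro i j h
    fin_cases i <;> fin_cases j <;> simp [ptsA, p, a] at h ⊢ <;> linarith
  intro i j h
  apply key
  simp only [h]

theorem injM : Function.Injective ptsM := by
  have h1 := s_lb
  have h2 := s_ub
  have key : Function.Injective fun i => (ptsM i) 0 + 10 * (ptsM i) 1 := by
    intro i j h
    fin_cases i <;> fin_cases j <;> simp [ptsM, q, m, a, gT, r] at h ⊢ <;> linarith
  intro i j h
  apply key
  simp only [h]

theorem memA_cases {w : E2} (h : w ∈ Set.range ptsA) : w = p ∨ ∃ i, w = a i := by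
  obtain ⟨i, rfl⟩ := h
  fin_cases i
  · exact Or.inl rfl
  · exact Or.inr ⟨0, rfl⟩
  · exact Or.inr ⟨1, rfl⟩
  · exact Or.inr ⟨2, rfl⟩
  · exact Or.inr ⟨3, rfl⟩

theorem a_memA (i : Fin 4) : a i ∈ Set.range ptsA := by
  fin_cases i
  · exact ⟨1, rfl⟩
  · exact ⟨2, rfl⟩
  · exact ⟨3, rfl⟩
  · exact ⟨4, rfl⟩

theorem memM_cases {w : E2} (h : w ∈ Set.range ptsM) : w = q ∨ ∃ i, w = m i := by
  obtain ⟨i, rfl⟩ := h
  fin_cases i
  · exact Or.inl rfl
  · exact Or.inr ⟨0, rfl⟩
  · exact Or.inr ⟨1, rfl⟩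
  · exact Or.inr ⟨2, rfl⟩
  · exact Or.inr ⟨3, rfl⟩

theorem m_memM (i : Fin 4) : m i ∈ Set.range ptsM := by
  fin_cases i
  · exact ⟨1, rfl⟩
  · exact ⟨2, rfl⟩
  · exact ⟨3, rfl⟩
  · exact ⟨4, rfl⟩

theorem q_memM : q ∈ Set.range ptsM := ⟨0, rfl⟩

theorem totDisc (B : Set E2) (hB : B.Finite) : IsTotallyDisconnected B := by
  intro t ht hconn
  rcases t.subsingleton_or_nontrivial with h | h
  · exact h
  · exact absurd (hB.subset ht) (hconn.infinite_of_nontrivial h)

theorem TT_ne_SS : TT ≠ SS := by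
  intro h
  have h1 : u ∈ TT := h ▸ u_mem_SS
  have h2 := (TT_coord h1).2.1 (by simp [u])
  have h3 := s_ub
  simp only [u, pt_zero] at h2
  linarith

/-- There exist d, a nonempty compact totally disconnected A in R^d with two distinct Steiner trees S, T, no terminal interior to segments in both, and nonempty compact M (∣M∣=∣A∣ if A finite) and r>0 with S an r-minimizer for M. -/
theorem result :
  ∃ (d : ℕ) (A S T M : Set (EuclideanSpace ℝ (Fin d))) (r : ℝ),
    IsCompact A ∧ A.Nonempty ∧ IsTotallyDisconnected A ∧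
    (IsCompact S ∧ IsConnected S ∧ A ⊆ S ∧
      MeasureTheory.Measure.hausdorffMeasure 1 S < ⊤ ∧
      ∀ S' : Set (EuclideanSpace ℝ (Fin d)), IsCompact S' → IsConnected S' → A ⊆ S' →
        MeasureTheory.Measure.hausdorffMeasure 1 S ≤ MeasureTheory.Measure.hausdorffMeasure 1 S') ∧
    (IsCompact T ∧ IsConnected T ∧ A ⊆ T ∧
      MeasureTheory.Measure.hausdorffMeasure 1 T < ⊤ ∧
      ∀ S' : Set (EuclideanSpace ℝ (Fin d)), IsCompact S' → IsConnected S' → A ⊆ S' →
        MeasureTheory.Measure.hausdorffMeasure 1 T ≤ MeasureTheory.Measure.hausdorffMeasure 1 S') ∧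
    S ≠ T ∧
    IsCompact M ∧ M.Nonempty ∧ 0 < r ∧
    (A.Finite → M.Finite ∧ M.ncard = A.ncard) ∧
    (¬ ∃ a ∈ A,
        (∃ x y : EuclideanSpace ℝ (Fin d), x ≠ y ∧ segment ℝ x y ⊆ S ∧ a ∈ openSegment ℝ x y) ∧
        (∃ x y : EuclideanSpace ℝ (Fin d), x ≠ y ∧ segment ℝ x y ⊆ T ∧ a ∈ openSegment ℝ x y)) ∧
    (∀ y ∈ M, Metric.infDist y S ≤ r) ∧
    ∀ W : Set (EuclideanSpace ℝ (Fin d)), IsCompact W → IsConnected W →
      (∀ y ∈ M, Metric.infDist y W ≤ r) →
        MeasureTheory.Measure.hausdorffMeasure 1 S ≤ MeasureTheory.Measure.hausdorffMeasure 1 W :=  by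
  refine ⟨2, Set.range ptsA, TT, SS, Set.range ptsM, r, (Set.finite_range _).isCompact,
    Set.range_nonempty _, totDisc _ (Set.finite_range _), ⟨isCompact_TT, isConnected_TT, ?_, ?_, ?_⟩,
    ⟨isCompact_SS, isConnected_SS, ?_, ?_, ?_⟩, TT_ne_SS, (Set.finite_range _).isCompact,
    Set.range_nonempty _, r_pos, ?_, ?_, ?_, ?_⟩
  · intro w hw
    rcases memA_cases hw with rfl | ⟨i, rfl⟩
    · exact p_mem_TT
    · exact a_mem_TT i
  · exact length_TT.trans_lt ENNReal.ofReal_lt_top
  · intro S' hc hconn hA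
    exact length_TT.trans (bound_four hc hconn.isPreconnected fun i => hA (a_memA i))
  · intro w hw
    rcases memA_cases hw with rfl | ⟨i, rfl⟩
    · exact p_mem_SS
    · exact a_mem_SS i
  · exact length_SS.trans_lt ENNReal.ofReal_lt_top
  · intro S' hc hconn hA
    exact length_SS.trans (bound_four hc hconn.isPreconnected fun i => hA (a_memA i))
  · intro _
    refine ⟨Set.finite_range _, ?_⟩
    rw [Set.ncard_range_of_injective injA, Set.ncard_range_of_injective injM]
  · rintro ⟨w, hw, ⟨x, y, hxy, hsub, hmem⟩, -⟩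
    rcases memA_cases hw with rfl | ⟨i, rfl⟩
    · exact not_branch hxy hsub hmem
    · exact not_corner i hxy hsub hmem
  · intro w hw
    rcases memM_cases hw with rfl | ⟨i, rfl⟩
    · rw [Metric.infDist_zero_of_mem q_mem_TT]
      exact r_pos.le
    · refine (Metric.infDist_le_dist_of_mem (a_mem_TT i)).trans ?_
      rw [dist_eq_norm]
      have e : m i - a i = r • gT i := by
        unfold m
        abel
      rw [e, norm_smul, gT_unit, Real.norm_of_nonneg r_pos.le, mul_one]
  · intro W hWc hW hM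
    have h1 : ∀ i, ∃ b ∈ W, dist b (m i) ≤ r := by
      intro i
      obtain ⟨b, hb, he⟩ := hWc.exists_infDist_eq_dist hW.nonempty (m i)
      refine ⟨b, hb, ?_⟩
      rw [dist_comm, ← he]
      exact hM _ (m_memM i)
    choose b hbW hb using h1
    obtain ⟨z, hz, he⟩ := hWc.exists_infDist_eq_dist hW.nonempty q
    have hz' : dist z q ≤ r := by
      rw [dist_comm, ← he]
      exact hM _ q_memM
    exact length_TT.trans (bound_ball hWc hW.isPreconnected hbW hz hb hz')

end Pool.Agent.S13589
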