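import Pool.Statements.S19764
import Pool.Agent.T2H64.Star.Final

set_option autoImplicit false
open Classical
open Filter Topology
open Pool Pool.MP_fb9f4e_pr

namespace Pool.Agent.S19764

/-- The negation of the preceding statement: For fixed d ≥ 1 and n → ∞ with dn even, every sequence of graph events has probability → 0 under the uniform d-regular graph iff it does under the star d-process final graph conditioned on being d-regular. -/
theorem result :
    ¬ (∀ d : ℕ, 1 ≤ d →
    ∀ M : (n : ℕ) → Matrix (SimpleGraph (Fin n)) (SimpleGraph (Fin n)) ℝ,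
      (∀ (n : ℕ) (G H : SimpleGraph (Fin n)),
        M n G H =
          if (∀ v, G.degree v = d) then (if H = G then 1 else 0) else
            ∑ v ∈ Finset.univ.filter (fun w => ∀ u, G.degree w ≤ G.degree u),
              ∑ S ∈ (Finset.univ.filter
                  (fun u => u ≠ v ∧ G.degree u < d ∧ ¬ G.Adj v u)).powersetCard (d - G.degree v),
                (if H = G ⊔ SimpleGraph.fromRel (fun x y => x = v ∧ y ∈ S) then (1 : ℝ) else 0) /
                  (((Finset.univ.filter (fun w => ∀ u, G.degree w ≤ G.degree u)).card : ℝ) *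
                    (((Finset.univ.filter
                      (fun u => u ≠ v ∧ G.degree u < d ∧ ¬ G.Adj v u)).card.choose
                        (d - G.degree v) : ℕ) : ℝ))) →
    ∀ A : (n : ℕ) → Finset (SimpleGraph (Fin n)),
      (Tendsto
        (fun n => (((A n).filter (fun H => ∀ v, H.degree v = d)).card : ℝ) /
          ((Finset.univ.filter (fun H : SimpleGraph (Fin n) => ∀ v, H.degree v = d)).card : ℝ))
        (atTop ⊓ 𝓟 {n | Even (d * n)}) (𝓝 0) ↔
       Tendsto
        (fun n => (∑ H ∈ (A n).filter (fun H => ∀ v, H.degree v = d), (M n ^ n) ⊥ H) /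
          (∑ H ∈ Finset.univ.filter (fun H : SimpleGraph (Fin n) => ∀ v, H.degree v = d),
            (M n ^ n) ⊥ H))
        (atTop ⊓ 𝓟 {n | Even (d * n)}) (𝓝 0))) := by
  intro hall
  obtain ⟨d, hd1, hdev, hnot⟩ := Pool.Agent.T2H64.Star.final
  apply hnot
  have hev : ∀ n : ℕ, Even (d * n) := fun n => hdev.mul_right n
  have hset : {n : ℕ | Even (d * n)} = Set.univ := Set.eq_univ_of_forall hev
  have hreg : ∀ (n : ℕ) (H : SimpleGraph (Fin n)), (∀ v, H.degree v = d) ↔
      Pool.Agent.T2H64.Star.Reg d H := by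
    intro n H
    unfold Pool.Agent.T2H64.Star.Reg
    exact forall_congr' fun v => by rw [Pool.Agent.T2H64.Star.degree_eq]
  have hK : ∀ (n : ℕ) (G H : SimpleGraph (Fin n)),
        Pool.Agent.T2H64.Star.K d n G H =
          if (∀ v, G.degree v = d) then (if H = G then 1 else 0) else
            ∑ v ∈ Finset.univ.filter (fun w => ∀ u, G.degree w ≤ G.degree u),
              ∑ S ∈ (Finset.univ.filter
                  (fun u => u ≠ v ∧ G.degree u < d ∧ ¬ G.Adj v u)).powersetCard (d - G.degree v),
                (if H = G ⊔ SimpleGraph.fromRel (fun x y => x = v ∧ y ∈ S) then (1 : ℝ) else 0) /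
                  (((Finset.univ.filter (fun w => ∀ u, G.degree w ≤ G.degree u)).card : ℝ) *
                    (((Finset.univ.filter
                      (fun u => u ≠ v ∧ G.degree u < d ∧ ¬ G.Adj v u)).card.choose
                        (d - G.degree v) : ℕ) : ℝ)) := by
    intro n G H
    simp only [Pool.Agent.T2H64.Star.degree_eq]
    unfold Pool.Agent.T2H64.Star.K Pool.Agent.T2H64.Star.Reg Pool.Agent.T2H64.Star.mins
      Pool.Agent.T2H64.Star.cand Pool.Agent.T2H64.Star.star
    congr!
  have h := hall d hd1 (fun n => Pool.Agent.T2H64.Star.K d n) hK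
    (fun n => Finset.univ.filter (fun H : SimpleGraph (Fin n) => ¬ Pool.Agent.T2H64.Star.PR d H))
  have hright := h.1 (by
    have hu := Pool.Agent.T2H64.Star.unif d (by omega)
    refine (hu.mono_left inf_le_left).congr fun n => ?_
    unfold Pool.Agent.T2H64.Star.RG
    congr 2
    · congr 1
      ext H
      simp only [Finset.mem_filter, Finset.mem_univ, true_and, hreg]
      tauto
    · congr 1
      ext H
      simp only [Finset.mem_filter, Finset.mem_univ, true_and, hreg])
  rw [hset, principal_univ, inf_top_eq] at hright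
  have hnum : ∀ n : ℕ, (∑ H ∈ (Finset.univ.filter (fun H : SimpleGraph (Fin n) =>
      ¬ Pool.Agent.T2H64.Star.PR d H)).filter (fun H => ∀ v, H.degree v = d),
      ((Pool.Agent.T2H64.Star.K d n) ^ n) ⊥ H) =
      Pool.Agent.T2H64.Star.It d n (Pool.Agent.T2H64.Star.iA d) (⊥ : SimpleGraph (Fin n)) := by
    intro n
    rw [← Pool.Agent.T2H64.Star.pow_sum, Finset.filter_filter, Finset.sum_filter]
    refine Finset.sum_congr rfl fun H _ => ?_
    unfold Pool.Agent.T2H64.Star.iA
    by_cases h1 : Pool.Agent.T2H64.Star.Reg d H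
    · have h1' := (hreg n H).2 h1
      by_cases h2 : Pool.Agent.T2H64.Star.PR d H
      · rw [if_neg (by tauto), if_neg (by tauto), mul_zero]
      · rw [if_pos (by tauto), if_pos (by tauto), mul_one]
    · have h1' : ¬ ∀ v, H.degree v = d := fun hc => h1 ((hreg n H).1 hc)
      rw [if_neg (by tauto), if_neg (by tauto), mul_zero]
  have hden : ∀ n : ℕ, (∑ H ∈ Finset.univ.filter (fun H : SimpleGraph (Fin n) =>
      ∀ v, H.degree v = d), ((Pool.Agent.T2H64.Star.K d n) ^ n) ⊥ H) =
      Pool.Agent.T2H64.Star.It d n (Pool.Agent.T2H64.Star.ind d) (⊥ : SimpleGraph (Fin n)) := by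
    intro n
    rw [← Pool.Agent.T2H64.Star.pow_sum, Finset.sum_filter]
    refine Finset.sum_congr rfl fun H _ => ?_
    unfold Pool.Agent.T2H64.Star.ind
    by_cases h1 : Pool.Agent.T2H64.Star.Reg d H
    · have h1' := (hreg n H).2 h1
      rw [if_pos h1', if_pos h1, mul_one]
    · have h1' : ¬ ∀ v, H.degree v = d := fun hc => h1 ((hreg n H).1 hc)
      rw [if_neg h1', if_neg h1, mul_zero]
  have hzero : ∀ (n k : ℕ), Pool.Agent.T2H64.Star.It d k (fun _ : SimpleGraph (Fin n) => (0 : ℝ)) =
      fun _ => 0 := by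
    intro n k
    induction k with
    | zero => rfl
    | succ k ihk =>
      rw [Pool.Agent.T2H64.Star.It_succ, ihk]
      funext H
      unfold Pool.Agent.T2H64.Star.E
      simp
  refine squeeze_zero (fun n => ?_) (fun n => ?_) hright
  · have h1 : Pool.Agent.T2H64.Star.It d n (fun _ : SimpleGraph (Fin n) => (0 : ℝ)) ⊥ ≤
        Pool.Agent.T2H64.Star.It d n (Pool.Agent.T2H64.Star.iA d) (⊥ : SimpleGraph (Fin n)) := by
      refine Pool.Agent.T2H64.Star.It_mono fun H _ => ?_
      unfold Pool.Agent.T2H64.Star.iA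
      split_ifs <;> norm_num
    rw [hzero] at h1
    exact h1
  · have hnum' := hnum n
    have hden' := hden n
    rw [hnum', hden']
    have h0 : 0 ≤ Pool.Agent.T2H64.Star.It d n (Pool.Agent.T2H64.Star.iA d)
        (⊥ : SimpleGraph (Fin n)) := by
      have h1 : Pool.Agent.T2H64.Star.It d n (fun _ : SimpleGraph (Fin n) => (0 : ℝ)) ⊥ ≤
          Pool.Agent.T2H64.Star.It d n (Pool.Agent.T2H64.Star.iA d) (⊥ : SimpleGraph (Fin n)) := by
        refine Pool.Agent.T2H64.Star.It_mono fun H _ => ?_
        unfold Pool.Agent.T2H64.Star.iA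
        split_ifs <;> norm_num
      rw [hzero] at h1
      exact h1
    have h1 : Pool.Agent.T2H64.Star.It d n (Pool.Agent.T2H64.Star.iA d) (⊥ : SimpleGraph (Fin n)) ≤
        Pool.Agent.T2H64.Star.It d n (Pool.Agent.T2H64.Star.ind d) (⊥ : SimpleGraph (Fin n)) := by
      refine Pool.Agent.T2H64.Star.It_mono fun H _ => ?_
      unfold Pool.Agent.T2H64.Star.iA Pool.Agent.T2H64.Star.ind
      by_cases h1 : Pool.Agent.T2H64.Star.Reg d H <;> by_cases h2 : Pool.Agent.T2H64.Star.PR d H <;>
        simp [h1, h2]
    have h2 : Pool.Agent.T2H64.Star.It d n (Pool.Agent.T2H64.Star.ind d) (⊥ : SimpleGraph (Fin n)) ≤ 1 := by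
      refine le_trans ?_ (Pool.Agent.T2H64.Star.It_one_le (d := d) n (⊥ : SimpleGraph (Fin n)))
      refine Pool.Agent.T2H64.Star.It_mono fun H _ => ?_
      unfold Pool.Agent.T2H64.Star.ind
      split_ifs <;> norm_num
    rcases eq_or_lt_of_le (h0.trans h1) with h3 | h3
    · rw [← h3, div_zero, h3]
      exact h1
    · rw [le_div_iff₀ h3]
      exact mul_le_of_le_one_right h0 h2

end Pool.Agent.S19764
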